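import Pool.Agent.WIR.StmtsE

/-!
# Squad WIR, row CDT (helper6): recursion on the map side
-/

set_option autoImplicit false

namespace Pool.Agent.WIR.H6

open Pool.Agent.WIR

/-- The set counted by `uT`. -/
def US (M l a : ℕ) : Set ℕ := {b : ℕ | 0 < b ∧ T^[M] b = a ∧
    ((Finset.range M).filter (fun i => T^[i] b % 2 = 1)).card = l}

theorem uT_eq (M l a : ℕ) : uT M l a = (US M l a).ncard := rfl

theorem le_T (b : ℕ) : b ≤ 2 * T b := by
  unfold T
  split_ifs with h <;> omega

theorem le_iter (M b : ℕ) : b ≤ 2 ^ M * T^[M] b := by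
  induction M with
  | zero => simp
  | succ M ih =>
    rw [Function.iterate_succ_apply']
    have h1 := le_T (T^[M] b)
    calc b ≤ 2 ^ M * T^[M] b := ih
      _ ≤ 2 ^ M * (2 * T (T^[M] b)) := Nat.mul_le_mul_left _ h1
      _ = 2 ^ (M + 1) * T (T^[M] b) := by ring

theorem iter_pos {M b : ℕ} (hb : 0 < b) : 0 < T^[M] b := by
  have h1 := le_iter M b
  rcases Nat.eq_zero_or_pos (T^[M] b) with h | h
  · rw [h] at h1
    omega
  · exact h

theorem US_finite (M l a : ℕ) : (US M l a).Finite := by
  refine (Set.finite_Iic (2 ^ M * a)).subset ?_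
  rintro b ⟨-, h, -⟩
  have h1 := le_iter M b
  rw [h] at h1
  exact h1

theorem card_succ (M b : ℕ) :
    ((Finset.range (M + 1)).filter (fun i => T^[i] b % 2 = 1)).card =
      ((Finset.range M).filter (fun i => T^[i] b % 2 = 1)).card +
        (if T^[M] b % 2 = 1 then 1 else 0) := by
  rw [Finset.range_add_one, Finset.filter_insert]
  split_ifs with h
  · rw [Finset.card_insert_of_notMem (by simp)]
  · rfl

theorem T_eq_iff {c a : ℕ} (_ : 0 < c) :
    T c = a ↔ (c = 2 * a) ∨ (c % 2 = 1 ∧ 3 * c + 1 = 2 * a) := by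
  unfold T
  split_ifs with h
  · constructor
    · intro h1
      right
      omega
    · rintro (h1 | h1) <;> omega
  · constructor
    · intro h1
      left
      omega
    · rintro (h1 | h1) <;> omega

theorem mem_US_succ {M L a b : ℕ} : b ∈ US (M + 1) L a ↔
    b ∈ US M L (2 * a) ∨ (0 < b ∧ T^[M] b % 2 = 1 ∧ 3 * T^[M] b + 1 = 2 * a ∧
      ((Finset.range M).filter (fun i => T^[i] b % 2 = 1)).card + 1 = L) := by
  unfold US
  simp only [Set.mem_setOf_eq]
  rw [Function.iterate_succ_apply', card_succ]
  constructor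
  · rintro ⟨hb, h1, h2⟩
    rw [T_eq_iff (iter_pos hb)] at h1
    rcases h1 with h1 | ⟨h1, h3⟩
    · left
      have h4 : ¬ T^[M] b % 2 = 1 := by omega
      rw [if_neg h4] at h2
      exact ⟨hb, h1, by omega⟩
    · right
      rw [if_pos h1] at h2
      exact ⟨hb, h1, h3, h2⟩
  · rintro (⟨hb, h1, h2⟩ | ⟨hb, h1, h2, h3⟩)
    · have h4 : ¬ T^[M] b % 2 = 1 := by omega
      refine ⟨hb, (T_eq_iff (iter_pos hb)).2 (Or.inl h1), ?_⟩
      rw [if_neg h4]
      omega
    · refine ⟨hb, (T_eq_iff (iter_pos hb)).2 (Or.inr ⟨h1, h2⟩), ?_⟩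
      rw [if_pos h1]
      exact h3

theorem cdt : CdtStmt := by
  intro l a ha
  refine ⟨?_, ?_⟩
  · rw [uT_eq]
    split_ifs with hl
    · have h1 : US 0 l a = {a} := by
        ext b
        unfold US
        simp only [Set.mem_setOf_eq, Function.iterate_zero, id_eq, Finset.range_zero,
          Finset.filter_empty, Finset.card_empty, Set.mem_singleton_iff]
        constructor
        · exact fun h => h.2.1
        · rintro rfl
          exact ⟨ha, rfl, hl.symm⟩
      rw [h1, Set.ncard_singleton]
    · have h1 : US 0 l a = ∅ := by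
        ext b
        unfold US
        simp only [Set.mem_setOf_eq, Function.iterate_zero, id_eq, Finset.range_zero,
          Finset.filter_empty, Finset.card_empty, Set.mem_empty_iff_false, iff_false]
        rintro ⟨-, -, h⟩
        exact hl h.symm
      rw [h1, Set.ncard_empty]
  · intro M
    refine ⟨?_, ?_⟩
    · rw [uT_eq, uT_eq]
      congr 1
      ext b
      rw [mem_US_succ]
      constructor
      · rintro (h | ⟨-, -, -, h⟩)
        · exact h
        · omega
      · exact Or.inl
    · rw [uT_eq, uT_eq, uT_eq]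
      split_ifs with h3
      · have h1 : US (M + 1) (l + 1) a = US M (l + 1) (2 * a) ∪ US M l ((2 * a - 1) / 3) := by
          ext b
          rw [mem_US_succ, Set.mem_union]
          refine or_congr Iff.rfl ?_
          unfold US
          simp only [Set.mem_setOf_eq]
          constructor
          · rintro ⟨hb, h4, h5, h6⟩
            exact ⟨hb, by omega, by omega⟩
          · rintro ⟨hb, h4, h5⟩
            exact ⟨hb, by omega, by omega, by omega⟩
        rw [h1, Set.ncard_union_eq ?_ (US_finite _ _ _) (US_finite _ _ _)]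
        rw [Set.disjoint_left]
        rintro b ⟨-, h4, -⟩ ⟨-, h5, -⟩
        omega
      · rw [add_zero]
        congr 1
        ext b
        rw [mem_US_succ]
        constructor
        · rintro (h | ⟨-, -, h, -⟩)
          · exact h
          · omega
        · exact Or.inl

end Pool.Agent.WIR.H6
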