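import Pool.Agent.WIR.StmtsB

/-!
# Squad WIR, row KGG (helper6): a double step is two geometric steps
-/

set_option autoImplicit false

namespace Pool.Agent.WIR.H6

open scoped BigOperators
open Pool.Agent.WIR

theorem kgg : KggStmt := by
  intro B f l
  unfold Kh Gh
  simp only [Finset.mul_sum]
  rw [Finset.sum_comm' (s := Finset.Icc (l + 1) B) (t := fun y => Finset.Icc (y + 1) B)
    (t' := Finset.Icc (l + 2) B) (s' := fun x => Finset.Icc (l + 1) (x - 1))
    (by
      intro y x
      simp only [Finset.mem_Icc]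
      omega)]
  refine Finset.sum_congr rfl fun x hx => ?_
  rw [Finset.mem_Icc] at hx
  have h1 : ∀ y ∈ Finset.Icc (l + 1) (x - 1),
      (1 / 2 : ℝ) ^ (y - l) * ((1 / 2 : ℝ) ^ (x - y) * f x) = (1 / 2 : ℝ) ^ (x - l) * f x := by
    intro y hy
    rw [Finset.mem_Icc] at hy
    rw [← mul_assoc, ← pow_add]
    have h2 : y - l + (x - y) = x - l := by omega
    rw [h2]
  rw [Finset.sum_congr rfl h1, Finset.sum_const, nsmul_eq_mul, Nat.card_Icc]
  have h3 : x - 1 + 1 - (l + 1) = x - l - 1 := by omega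
  rw [h3, mul_assoc]

end Pool.Agent.WIR.H6
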